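import Mathlib

namespace Pool.Agent.Lib.MP_ed45fc_co

open Finset

/- overwriting a Boolean vector on a finite set of coordinates -/
def ow {ι : Type} [DecidableEq ι] (D : Finset ι) (φ ω : ι → Bool) : ι → Bool :=
  fun i => if i ∈ D then φ i else ω i

lemma step_bound {ι : Type} [Fintype ι] [DecidableEq ι] (E : Finset (ι → Bool)) (D : Finset ι)
    (φ : ι → Bool) (hD : D.card ≤ 4) (hE : ∀ ω ∈ E, ow D φ ω ∈ E) :
    16 * (E.filter (fun ω => ¬ ∀ i ∈ D, ω i = φ i)).card ≤ 15 * E.card := by
  have h1 : E.card ≤ 16 * (E.filter (fun ω => ∀ i ∈ D, ω i = φ i)).card := by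
    apply Finset.card_le_mul_card_image_of_maps_to (f := ow D φ)
    · intro ω hω
      simp only [mem_filter]
      refine ⟨hE ω hω, fun i hi => by simp [ow, hi]⟩
    · intro η _
      have : (E.filter (fun ω => ow D φ ω = η)).card ≤ (univ : Finset (D → Bool)).card := by
        apply Finset.card_le_card_of_injOn (fun ω => fun i : D => ω i.1)
        · intro _ _; simp
        · intro a ha b hb hab
          simp only [coe_filter, Set.mem_ofPred_eq] at ha hb
          funext i
          by_cases hi : i ∈ D
          · exact congrFun hab ⟨i, hi⟩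
          · have h1 := congrFun ha.2 i
            have h2 := congrFun hb.2 i
            simp only [ow, hi, if_false] at h1 h2
            rw [h1, h2]
      refine this.trans ?_
      simp only [card_univ, Fintype.card_pi, Fintype.card_bool, prod_const, Fintype.card_coe]
      calc 2 ^ D.card ≤ 2 ^ 4 := Nat.pow_le_pow_right (by norm_num) hD
        _ = 16 := by norm_num
  have h2 := Finset.card_filter_add_card_filter_not (s := E) (fun ω => ∀ i ∈ D, ω i = φ i)
  omega

lemma indep_bound {ι K : Type} [Fintype ι] [DecidableEq ι] [DecidableEq K]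
    (D : K → Finset ι) (φ : K → ι → Bool) (hD : ∀ k, (D k).card ≤ 4)
    (hdis : ∀ k l, k ≠ l → Disjoint (D k) (D l)) (S : Finset K) :
    16 ^ S.card * ((univ : Finset (ι → Bool)).filter
        (fun ω => ∀ k ∈ S, ¬ ∀ i ∈ D k, ω i = φ k i)).card
      ≤ 15 ^ S.card * Fintype.card (ι → Bool) := by
  induction S using Finset.induction_on with
  | empty => simp
  | insert k S hk ih =>
    have hstep := step_bound ((univ : Finset (ι → Bool)).filter
        (fun ω => ∀ l ∈ S, ¬ ∀ i ∈ D l, ω i = φ l i)) (D k) (φ k) (hD k) (by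
      intro ω hω
      simp only [mem_filter, mem_univ, true_and] at hω ⊢
      intro l hl hall
      apply hω l hl
      intro i hi
      have hne : k ≠ l := fun h => hk (h ▸ hl)
      have hik : i ∉ D k := fun h => (Finset.disjoint_left.mp (hdis k l hne)) h hi
      have := hall i hi
      simpa [ow, hik] using this)
    have heq : ((univ : Finset (ι → Bool)).filter
        (fun ω => ∀ l ∈ insert k S, ¬ ∀ i ∈ D l, ω i = φ l i))
        = ((univ : Finset (ι → Bool)).filter
        (fun ω => ∀ l ∈ S, ¬ ∀ i ∈ D l, ω i = φ l i)).filter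
          (fun ω => ¬ ∀ i ∈ D k, ω i = φ k i) := by
      ext ω
      simp only [mem_filter, mem_univ, true_and, mem_insert, forall_eq_or_imp]
      tauto
    rw [heq, card_insert_of_notMem hk, pow_succ, pow_succ]
    calc 16 ^ S.card * 16 * _ = 16 ^ S.card * (16 * _) := by ring
      _ ≤ 16 ^ S.card * (15 * _) := Nat.mul_le_mul_left _ hstep
      _ = 15 * (16 ^ S.card * _) := by ring
      _ ≤ 15 * (15 ^ S.card * Fintype.card (ι → Bool)) := Nat.mul_le_mul_left _ ih
      _ = _ := by ring

lemma numeric (m : ℕ) (hm : 640 ≤ m) : (36 * (m + 1)) ^ 4 * 15 ^ m < 16 ^ m := by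
  induction m, hm using Nat.le_induction with
  | base => decide +kernel
  | succ m hm ih =>
    have h : (36 * (m + 1 + 1)) ^ 4 * 15 ≤ (36 * (m + 1)) ^ 4 * 16 := by
      obtain ⟨t, rfl⟩ := Nat.exists_eq_add_of_le hm
      ring_nf
      nlinarith [Nat.zero_le t, Nat.zero_le (t ^ 2), Nat.zero_le (t ^ 3), Nat.zero_le (t ^ 4)]
    calc (36 * (m + 1 + 1)) ^ 4 * 15 ^ (m + 1) = ((36 * (m + 1 + 1)) ^ 4 * 15) * 15 ^ m := by ring
      _ ≤ ((36 * (m + 1)) ^ 4 * 16) * 15 ^ m := Nat.mul_le_mul_right _ h
      _ = 16 * ((36 * (m + 1)) ^ 4 * 15 ^ m) := by ring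
      _ < 16 * 16 ^ m := by omega
      _ = 16 ^ (m + 1) := by ring

/- greedy selection in a family where each member conflicts with at most two others -/
lemma greedy {α : Type} [DecidableEq α] (R : α → α → Prop) [DecidableRel R]
    (hsymm : ∀ a b, R a b → R b a) (m : ℕ) :
    ∀ S : Finset α, (∀ a ∈ S, (S.filter (fun b => b ≠ a ∧ R a b)).card ≤ 2) → 3 * m ≤ S.card →
      ∃ T ⊆ S, T.card = m ∧ ∀ a ∈ T, ∀ b ∈ T, a ≠ b → ¬ R a b := by
  induction m with
  | zero => intro S _ _; exact ⟨∅, by simp, by simp, by simp⟩
  | succ m ih =>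
    intro S hS hc
    obtain ⟨a, ha⟩ : S.Nonempty := by
      rw [← Finset.card_pos]; omega
    let S' := S.filter (fun b => b ≠ a ∧ ¬ R a b)
    have hS' : S' ⊆ S := filter_subset _ _
    have hcard : S.card ≤ S'.card + 3 := by
      have hsub : S ⊆ insert a (S' ∪ S.filter (fun b => b ≠ a ∧ R a b)) := by
        intro b hb
        simp only [S', mem_insert, mem_union, mem_filter]
        by_cases hba : b = a
        · left; exact hba
        · right
          by_cases hr : R a b
          · right; exact ⟨hb, hba, hr⟩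
          · left; exact ⟨hb, hba, hr⟩
      have h1 := card_le_card hsub
      have h2 := card_insert_le a (S' ∪ S.filter (fun b => b ≠ a ∧ R a b))
      have h3 := card_union_le S' (S.filter (fun b => b ≠ a ∧ R a b))
      have h4 := hS a ha
      omega
    obtain ⟨T, hT, hTc, hTi⟩ := ih S' (fun b hb =>
      (card_le_card (filter_subset_filter _ hS')).trans (hS b (hS' hb))) (by omega)
    have haT : a ∉ T := fun h => by
      have := hT h
      simp [S'] at this
    refine ⟨insert a T, ?_, ?_, ?_⟩
    · intro b hb
      rcases mem_insert.mp hb with rfl | hb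
      · exact ha
      · exact hS' (hT hb)
    · rw [card_insert_of_notMem haT, hTc]
    · intro b hb c hc hbc
      rcases mem_insert.mp hb with hb | hb <;> rcases mem_insert.mp hc with hc | hc
      · exact absurd (hb.trans hc.symm) hbc
      · have := hT hc
        simp only [S', mem_filter] at this
        rw [hb]; exact this.2.2
      · have := hT hb
        simp only [S', mem_filter] at this
        rw [hc]; exact fun h => this.2.2 (hsymm _ _ h)
      · exact hTi b hb c hc hbc

end Pool.Agent.Lib.MP_ed45fc_co
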