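import Mathlib
import Pool.Agent.Lib.MP_ed45fc_co.Count

namespace Pool.Agent.Lib.MP_ed45fc_co

open Finset

/- vertices (i,false) are the roots, vertices (i,true) their copies -/
def Gr {n : ℕ} (X : Sym2 (Fin n) → Bool) : SimpleGraph (Fin n × Bool) where
  Adj x y := x.1 ≠ y.1 ∧ X s(x.1, y.1) = (x.2 || y.2)
  symm := ⟨fun x y h => ⟨h.1.symm, by rw [Sym2.eq_swap, Bool.or_comm]; exact h.2⟩⟩
  loopless := ⟨fun x h => h.1 rfl⟩

def pr {n m : ℕ} (F : Fin m × Bool → (Fin n × Bool) × (Fin n × Bool)) (z : Fin m × Bool) :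
    Finset (Fin n × Bool) := {(F z).1, (F z).2}

def Good {n m : ℕ} (F : Fin m × Bool → (Fin n × Bool) × (Fin n × Bool)) : Prop :=
  (∀ z, ∀ x ∈ pr F z, ∀ y ∈ pr F z, x.1 = y.1 → x = y) ∧
  (∀ z w, z ≠ w → ∀ x ∈ pr F z, ∀ y ∈ pr F w, x.1 ≠ y.1)

def DD {n m : ℕ} (F : Fin m × Bool → (Fin n × Bool) × (Fin n × Bool)) (k : Fin m × Fin m) :
    Finset (Sym2 (Fin n)) :=
  (pr F (k.1, false) ×ˢ pr F (k.2, true)).image (fun t => s(t.1.1, t.2.1))

def ph {n m : ℕ} (F : Fin m × Bool → (Fin n × Bool) × (Fin n × Bool)) (k : Fin m × Fin m)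
    (e : Sym2 (Fin n)) : Bool :=
  decide (¬ ∃ x ∈ pr F (k.1, false), ∃ y ∈ pr F (k.2, true), e = s(x.1, y.1) ∧ (x.2 || y.2) = true)

lemma pr_card {n m : ℕ} (F : Fin m × Bool → (Fin n × Bool) × (Fin n × Bool)) (z : Fin m × Bool) :
    (pr F z).card ≤ 2 := card_le_two

lemma DD_card {n m : ℕ} (F : Fin m × Bool → (Fin n × Bool) × (Fin n × Bool)) (k : Fin m × Fin m) :
    (DD F k).card ≤ 4 := by
  refine card_image_le.trans ?_
  rw [card_product]
  exact (Nat.mul_le_mul (pr_card F _) (pr_card F _))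

lemma DD_disj {n m : ℕ} (F : Fin m × Bool → (Fin n × Bool) × (Fin n × Bool)) (hF : Good F)
    (k l : Fin m × Fin m) (hkl : k ≠ l) : Disjoint (DD F k) (DD F l) := by
  rw [Finset.disjoint_left]
  intro e he1 he2
  simp only [DD, mem_image, mem_product] at he1 he2
  obtain ⟨⟨x, y⟩, ⟨hx, hy⟩, rfl⟩ := he1
  obtain ⟨⟨x', y'⟩, ⟨hx', hy'⟩, h⟩ := he2
  simp only at hx hy hx' hy' h
  rcases Sym2.eq_iff.mp h with ⟨h1, h2⟩ | ⟨h1, h2⟩
  · by_cases h3 : k.1 = l.1
    · have h4 : k.2 ≠ l.2 := fun h4 => hkl (Prod.ext h3 h4)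
      exact hF.2 (k.2, true) (l.2, true) (by simpa using h4) y hy y' hy' h2.symm
    · exact hF.2 (k.1, false) (l.1, false) (by simpa using h3) x hx x' hx' h1.symm
  · exact hF.2 (l.1, false) (k.2, true) (by simp) x' hx' y hy h1

lemma agree_nonadj {n m : ℕ} (F : Fin m × Bool → (Fin n × Bool) × (Fin n × Bool)) (hF : Good F)
    (k : Fin m × Fin m) (X : Sym2 (Fin n) → Bool) (h : ∀ e ∈ DD F k, X e = ph F k e) :
    ∀ x ∈ pr F (k.1, false), ∀ y ∈ pr F (k.2, true), ¬ (Gr X).Adj x y := by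
  intro x hx y hy hadj
  have h1 := h s(x.1, y.1) (by
    simp only [DD, mem_image, mem_product]
    exact ⟨(x, y), ⟨hx, hy⟩, rfl⟩)
  have h2 : X s(x.1, y.1) = (x.2 || y.2) := hadj.2
  rw [h2] at h1
  cases hb : (x.2 || y.2) with
  | true =>
    rw [hb] at h1
    have := of_decide_eq_true h1.symm
    exact this ⟨x, hx, y, hy, rfl, hb⟩
  | false =>
    rw [hb] at h1
    have := of_decide_eq_false h1.symm
    push Not at this
    obtain ⟨x', hx', y', hy', he, ht⟩ := this
    rcases Sym2.eq_iff.mp he with ⟨h3, h4⟩ | ⟨h3, h4⟩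
    · have e1 := hF.1 _ x hx x' hx' h3
      have e2 := hF.1 _ y hy y' hy' h4
      rw [← e1, ← e2, hb] at ht
      exact absurd ht (by simp)
    · exact hF.2 (k.1, false) (k.2, true) (by simp) x hx y' hy' h3

theorem exists_X (n m : ℕ) (hm : 640 ≤ m) (hn : n ≤ 18 * (m + 1)) :
    ∃ X : Sym2 (Fin n) → Bool, ∀ F : Fin m × Bool → (Fin n × Bool) × (Fin n × Bool), Good F →
      ∃ p q : Fin m, ∀ x ∈ pr F (p, false), ∀ y ∈ pr F (q, true), ¬ (Gr X).Adj x y := by
  classical
  let Bad : (Fin m × Bool → (Fin n × Bool) × (Fin n × Bool)) → Finset (Sym2 (Fin n) → Bool) :=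
    fun F => univ.filter (fun ω => ∀ k ∈ (univ : Finset (Fin m × Fin m)),
      ¬ ∀ i ∈ DD F k, ω i = ph F k i)
  let GF : Finset (Fin m × Bool → (Fin n × Bool) × (Fin n × Bool)) := univ.filter Good
  set T := Fintype.card (Sym2 (Fin n) → Bool) with hT
  have hTpos : 0 < T := Fintype.card_pos
  have hBad : ∀ F ∈ GF, 16 ^ (m * m) * (Bad F).card ≤ 15 ^ (m * m) * T := by
    intro F hF
    have hF' : Good F := by simpa [GF] using hF
    have := indep_bound (DD F) (ph F) (DD_card F) (DD_disj F hF') univ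
    rw [card_univ, Fintype.card_prod, Fintype.card_fin] at this
    refine le_trans (le_of_eq ?_) this
    congr 2
    ext ω
    simp only [Bad, mem_filter]
  have hGF : GF.card ≤ ((36 * (m + 1)) ^ 4) ^ m := by
    calc GF.card ≤ Fintype.card (Fin m × Bool → (Fin n × Bool) × (Fin n × Bool)) := card_le_univ _
      _ = ((n * 2) * (n * 2)) ^ (m * 2) := by simp
      _ = ((n * 2) ^ 4) ^ m := by
        rw [← pow_two, ← pow_mul, ← pow_mul]; congr 1; ring
      _ ≤ ((36 * (m + 1)) ^ 4) ^ m := by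
        apply Nat.pow_le_pow_left
        apply Nat.pow_le_pow_left
        omega
  have hnum : ((36 * (m + 1)) ^ 4) ^ m * 15 ^ (m * m) < 16 ^ (m * m) := by
    have h := numeric m hm
    have h2 := Nat.pow_lt_pow_left h (show m ≠ 0 by omega)
    rw [mul_pow, ← pow_mul 15, ← pow_mul 16] at h2
    exact h2
  have hlt : (GF.biUnion Bad).card < T := by
    have h1 : (GF.biUnion Bad).card ≤ ∑ F ∈ GF, (Bad F).card := card_biUnion_le
    have h2 : 16 ^ (m * m) * ∑ F ∈ GF, (Bad F).card ≤ GF.card * (15 ^ (m * m) * T) := by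
      rw [mul_sum]
      exact (sum_le_card_nsmul GF _ _ hBad).trans (by simp)
    have h3 : GF.card * (15 ^ (m * m) * T) < 16 ^ (m * m) * T := by
      calc GF.card * (15 ^ (m * m) * T) ≤ ((36 * (m + 1)) ^ 4) ^ m * (15 ^ (m * m) * T) :=
            Nat.mul_le_mul_right _ hGF
        _ = (((36 * (m + 1)) ^ 4) ^ m * 15 ^ (m * m)) * T := by ring
        _ < 16 ^ (m * m) * T := Nat.mul_lt_mul_of_pos_right hnum hTpos
    have h4 := lt_of_le_of_lt h2 h3
    exact lt_of_le_of_lt h1 (Nat.lt_of_mul_lt_mul_left h4)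
  obtain ⟨X, hX⟩ : ∃ X, X ∉ GF.biUnion Bad := by
    by_contra hc
    push Not at hc
    have : GF.biUnion Bad = univ := eq_univ_of_forall hc
    rw [this, card_univ] at hlt
    exact lt_irrefl _ hlt
  refine ⟨X, fun F hF => ?_⟩
  have hX' : X ∉ Bad F := fun h => hX (mem_biUnion.mpr ⟨F, by simpa [GF] using hF, h⟩)
  simp only [Bad, mem_filter, mem_univ, true_and, forall_true_left] at hX'
  obtain ⟨k, hk⟩ := not_forall.mp hX'
  exact ⟨k.1, k.2, agree_nonadj F hF k X (not_not.mp hk)⟩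

lemma two_elts {α : Type} {a b x y w : α} (hx : x = a ∨ x = b) (hy : y = a ∨ y = b)
    (hw : w = a ∨ w = b) (h1 : ¬ x = y) (h2 : x ≠ w) : w = y := by
  rcases hx with hx | hx <;> rcases hy with hy | hy <;> rcases hw with hw | hw <;>
    simp_all

theorem no_model (n : ℕ) (hn : 11520 ≤ n) :
    ∃ X : Sym2 (Fin n) → Bool, ∀ B : Fin n → Finset (Fin n × Bool),
      (∀ i, (B i).Nonempty) → (∀ i j, i ≠ j → Disjoint (B i) (B j)) →
      (∀ i, ∀ x ∈ B i, ∀ y ∈ B i, x ≠ y → ∃ z ∈ B i, (Gr X).Adj x z) →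
      ¬ (∀ i j, i ≠ j → ∃ x ∈ B i, ∃ y ∈ B j, (Gr X).Adj x y) := by
  classical
  obtain ⟨X, hX⟩ := exists_X n (n / 18) (by omega) (by omega)
  refine ⟨X, fun B hne hdis hconn hadj => ?_⟩
  set m := n / 18 with hm
  let S : Finset (Fin n) := univ.filter (fun i => (B i).card ≤ 2)
  have hsum : ∑ i, (B i).card ≤ n * 2 := by
    rw [← card_biUnion (fun i _ j _ hij => hdis i j hij)]
    exact (card_le_univ _).trans (by simp)
  have hS : n ≤ 3 * S.card := by
    have h1 : ∑ i ∈ univ.filter (fun i => ¬ (B i).card ≤ 2), 3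
        ≤ ∑ i ∈ univ.filter (fun i => ¬ (B i).card ≤ 2), (B i).card :=
      sum_le_sum (fun i hi => by simp only [mem_filter] at hi; omega)
    have h2 : ∑ i ∈ univ.filter (fun i => ¬ (B i).card ≤ 2), (B i).card ≤ ∑ i, (B i).card :=
      sum_le_sum_of_subset (filter_subset _ _)
    have h3 := Finset.card_filter_add_card_filter_not (s := (univ : Finset (Fin n)))
      (fun i => (B i).card ≤ 2)
    simp only [sum_const, smul_eq_mul, card_univ, Fintype.card_fin] at h1 h3
    simp only [S]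
    omega
  let R : Fin n → Fin n → Prop := fun i j => ∃ x ∈ B i, ∃ y ∈ B j, x.1 = y.1
  have hRs : ∀ a b, R a b → R b a := fun a b ⟨x, hx, y, hy, h⟩ => ⟨y, hy, x, hx, h.symm⟩
  have hdeg : ∀ a ∈ S, (S.filter (fun b => b ≠ a ∧ R a b)).card ≤ 2 := by
    intro a ha
    have ha' : (B a).card ≤ 2 := by simpa [S] using ha
    refine le_trans ?_ ha'
    have hch : ∀ b ∈ S.filter (fun b => b ≠ a ∧ R a b), ∃ x ∈ B a, (x.1, !x.2) ∈ B b := by
      intro b hb
      simp only [mem_filter] at hb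
      obtain ⟨_, hba, x, hx, y, hy, h⟩ := hb
      refine ⟨x, hx, ?_⟩
      have hxy : x ≠ y := fun e => (disjoint_left.mp (hdis a b hba.symm)) hx (e ▸ hy)
      have : y = (x.1, !x.2) := by
        obtain ⟨x1, x2⟩ := x
        obtain ⟨y1, y2⟩ := y
        simp only at h
        subst h
        cases x2 <;> cases y2 <;> simp_all
      exact this ▸ hy
    choose! f hf using hch
    apply card_le_card_of_injOn f
    · intro b hb
      exact (hf b hb).1
    · intro b hb c hc hbc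
      by_contra hne'
      have h1 := (hf b hb).2
      have h2 := (hf c hc).2
      rw [hbc] at h1
      exact (disjoint_left.mp (hdis b c hne')) h1 h2
  obtain ⟨T, hTS, hTc, hTi⟩ := greedy R hRs (m * 2) S hdeg (by omega)
  have hcard : Fintype.card (Fin m × Bool) = Fintype.card T := by simp [hTc]
  let e : Fin m × Bool ≃ T := Fintype.equivOfCardEq hcard
  have hpair : ∀ z : Fin m × Bool, ∃ t : (Fin n × Bool) × (Fin n × Bool),
      ({t.1, t.2} : Finset (Fin n × Bool)) = B (e z) := by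
    intro z
    have h1 : (B (e z)).card ≤ 2 := by simpa [S] using hTS (e z).2
    have h2 := (hne (e z)).card_pos
    rcases (show (B (e z)).card = 1 ∨ (B (e z)).card = 2 by omega) with h | h
    · obtain ⟨a, ha⟩ := card_eq_one.mp h
      exact ⟨(a, a), by simp [ha]⟩
    · obtain ⟨a, b, _, hab⟩ := card_eq_two.mp h
      exact ⟨(a, b), hab.symm⟩
  choose F hF using hpair
  have hpr : ∀ z, pr F z = B (e z) := hF
  have hGood : Good F := by
    constructor
    · intro z x hx y hy hxy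
      by_contra hne'
      have hx' := hx
      have hy' := hy
      rw [hpr] at hx' hy'
      obtain ⟨w, hw, hadj'⟩ := hconn _ x hx' y hy' hne'
      rw [← hpr] at hw
      have hwx : x ≠ w := hadj'.ne
      have hwy : w = y := by
        simp only [pr, mem_insert, mem_singleton] at hx hy hw
        exact two_elts hx hy hw hne' hwx
      rw [hwy] at hadj'
      exact hadj'.1 hxy
    · intro z w hzw x hx y hy hxy
      rw [hpr] at hx hy
      have hne' : (e z : Fin n) ≠ e w := fun h => hzw (e.injective (Subtype.ext h))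
      exact hTi _ (e z).2 _ (e w).2 hne' ⟨x, hx, y, hy, hxy⟩
  obtain ⟨p, q, hpq⟩ := hX F hGood
  have hne' : (e (p, false) : Fin n) ≠ e (q, true) := fun h => by
    have := e.injective (Subtype.ext h)
    simp at this
  obtain ⟨x, hx, y, hy, hxy⟩ := hadj _ _ hne'
  exact hpq x (hpr _ ▸ hx) y (hpr _ ▸ hy) hxy

def pathOf {n : ℕ} (X : Sym2 (Fin n) → Bool) (i j : Fin n) (h : i ≠ j) :
    (Gr X).Walk (i, false) (j, false) :=
  if hx : X s(i, j) = true then
    SimpleGraph.Walk.cons (v := (j, true)) ⟨h, by simpa using hx⟩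
      (SimpleGraph.Walk.cons (v := (i, true)) ⟨h.symm, by simpa [Sym2.eq_swap] using hx⟩
        (SimpleGraph.Walk.cons ⟨h, by simpa using hx⟩ SimpleGraph.Walk.nil))
  else SimpleGraph.Walk.cons ⟨h, by simpa using hx⟩ SimpleGraph.Walk.nil

lemma pathOf_isPath {n : ℕ} (X : Sym2 (Fin n) → Bool) (i j : Fin n) (h : i ≠ j) :
    (pathOf X i j h).IsPath := by
  unfold pathOf
  split_ifs with hx
  · simp [SimpleGraph.Walk.isPath_def, h, h.symm]
  · simp [SimpleGraph.Walk.isPath_def, h]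

lemma pathOf_symm {n : ℕ} (X : Sym2 (Fin n) → Bool) (i j : Fin n) (h : i ≠ j) :
    pathOf X j i h.symm = (pathOf X i j h).reverse := by
  unfold pathOf
  by_cases hx : X s(i, j) = true
  · have hx' : X s(j, i) = true := by rw [Sym2.eq_swap]; exact hx
    rw [dif_pos hx, dif_pos hx']
    rfl
  · have hx' : ¬ X s(j, i) = true := by rw [Sym2.eq_swap]; exact hx
    rw [dif_neg hx, dif_neg hx']
    rfl

lemma pathOf_support {n : ℕ} (X : Sym2 (Fin n) → Bool) (i j : Fin n) (h : i ≠ j)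
    (x : Fin n × Bool) (hx : x ∈ (pathOf X i j h).support) : x.1 = i ∨ x.1 = j := by
  unfold pathOf at hx
  split_ifs at hx
  · simp only [SimpleGraph.Walk.support_cons, SimpleGraph.Walk.support_nil, List.mem_cons,
      List.not_mem_nil, or_false] at hx
    rcases hx with rfl | rfl | rfl | rfl <;> simp
  · simp only [SimpleGraph.Walk.support_cons, SimpleGraph.Walk.support_nil, List.mem_cons,
      List.not_mem_nil, or_false] at hx
    rcases hx with rfl | rfl <;> simp

lemma first_step {V : Type} {G : SimpleGraph V} {x y : V} (p : G.Walk x y) (h : x ≠ y) :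
    ∃ z, G.Adj x z := by
  cases p with
  | nil => exact absurd rfl h
  | cons ha _ => exact ⟨_, ha⟩

end Pool.Agent.Lib.MP_ed45fc_co
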